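import Pool.Agent.helper4.QX.SpecM

/-! MRA: the `*`-homomorphism given by the random unitary matrices. -/

set_option autoImplicit false

open scoped MatrixGroups ContDiff Topology UpperHalfPlane
open UpperHalfPlane MeasureTheory ProbabilityTheory Filter Set Polynomial
open Pool.Agent.QU Pool.Agent.RP

namespace Pool.Agent.QX

/-- the homomorphism to matrices -/
noncomputable def MRA_hom {N : ℕ} (c : ℝ) (x : GI N → ℝ) : F2 →* Matrix (Fin N) (Fin N) ℂ :=
  (Matrix.unitaryGroup (Fin N) ℂ).subtype.comp (UG c x)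

/-- the algebra homomorphism -/
noncomputable def MRA_phi {N : ℕ} (c : ℝ) (x : GI N → ℝ) :
    MonoidAlgebra ℂ F2 →ₐ[ℂ] Matrix (Fin N) (Fin N) ℂ :=
  MonoidAlgebra.lift ℂ (Matrix (Fin N) (Fin N) ℂ) F2 (MRA_hom c x)

theorem MRA_phi_apply {N : ℕ} (c : ℝ) (x : GI N → ℝ) (a : MonoidAlgebra ℂ F2) :
    MRA_phi c x a = ∑ w ∈ a.coeff.support, a.coeff w •
      ((UG c x w : Matrix.unitaryGroup (Fin N) ℂ) : Matrix (Fin N) (Fin N) ℂ) := by
  unfold MRA_phi
  rw [MonoidAlgebra.lift_apply]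
  rfl

theorem MRA_entry {D N : ℕ} (c : ℝ) (x : GI N → ℝ) (P : Mat D F2) (s t : Fin D × Fin N) :
    RM c x P s t = MRA_phi c x (P s.1 t.1) s.2 t.2 := by
  rw [MRA_phi_apply, Matrix.sum_apply]
  unfold RM
  refine Finset.sum_congr rfl fun w _ => ?_
  rw [Matrix.smul_apply, smul_eq_mul]

theorem MRA_mul {D N : ℕ} (c : ℝ) (x : GI N → ℝ) (P Q : Mat D F2) :
    RM c x (P * Q) = RM c x P * RM c x Q := by
  ext s t
  rw [MRA_entry, Matrix.mul_apply, map_sum, Matrix.sum_apply, Matrix.mul_apply, Fintype.sum_prod_type]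
  refine Finset.sum_congr rfl fun k _ => ?_
  rw [map_mul, Matrix.mul_apply]
  refine Finset.sum_congr rfl fun l _ => ?_
  rw [MRA_entry, MRA_entry]

theorem MRA_add {D N : ℕ} (c : ℝ) (x : GI N → ℝ) (P Q : Mat D F2) :
    RM c x (P + Q) = RM c x P + RM c x Q := by
  ext s t
  rw [MRA_entry, Matrix.add_apply, map_add, Matrix.add_apply, Matrix.add_apply, MRA_entry, MRA_entry]

theorem MRA_smul {D N : ℕ} (c : ℝ) (x : GI N → ℝ) (r : ℝ) (P : Mat D F2) :
    RM c x (r • P) = r • RM c x P := by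
  ext s t
  have h : (r • P) s.1 t.1 = (r : ℂ) • P s.1 t.1 := by
    rw [Matrix.smul_apply]
    ext w
    rw [MonoidAlgebra.coeff_smul_apply, MonoidAlgebra.coeff_smul_apply, smul_eq_mul, Complex.real_smul]
  rw [MRA_entry, h, map_smul, Matrix.smul_apply, Matrix.smul_apply, MRA_entry, smul_eq_mul, Complex.real_smul]

theorem MRA_one {D N : ℕ} (c : ℝ) (x : GI N → ℝ) : RM c x (1 : Mat D F2) = 1 := by
  ext s t
  rw [MRA_entry, Matrix.one_apply, Matrix.one_apply]
  by_cases h : s.1 = t.1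
  · rw [if_pos h, map_one, Matrix.one_apply]
    by_cases h2 : s.2 = t.2
    · rw [if_pos h2, if_pos (Prod.ext h h2)]
    · rw [if_neg h2, if_neg (fun hst => h2 (congrArg Prod.snd hst))]
  · rw [if_neg h, map_zero, Matrix.zero_apply, if_neg (fun hst => h (congrArg Prod.fst hst))]

theorem MRA_zero {D N : ℕ} (c : ℝ) (x : GI N → ℝ) : RM c x (0 : Mat D F2) = 0 := by
  ext s t
  rw [MRA_entry, Matrix.zero_apply, map_zero, Matrix.zero_apply, Matrix.zero_apply]

/-- the homomorphism of real algebras -/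
noncomputable def MRA_alg {D N : ℕ} (c : ℝ) (x : GI N → ℝ) :
    Mat D F2 →ₐ[ℝ] Matrix (Fin D × Fin N) (Fin D × Fin N) ℂ where
  toFun := RM c x
  map_one' := MRA_one c x
  map_mul' := MRA_mul c x
  map_zero' := MRA_zero c x
  map_add' := MRA_add c x
  commutes' r := by
    rw [Algebra.algebraMap_eq_smul_one, MRA_smul, MRA_one, Algebra.algebraMap_eq_smul_one]

theorem MRA_adj {N : ℕ} (c : ℝ) (x : GI N → ℝ) (a : MonoidAlgebra ℂ F2) :
    MRA_phi c x (adj a) = (MRA_phi c x a).conjTranspose := by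
  rw [MRA_phi_apply c x a, Matrix.conjTranspose_sum]
  unfold adj MRA_phi
  rw [map_sum]
  refine Finset.sum_congr rfl fun w _ => ?_
  rw [MonoidAlgebra.lift_single, Matrix.conjTranspose_smul]
  congr 1
  unfold MRA_hom
  rw [MonoidHom.comp_apply, map_inv]
  rfl

theorem MRA : MRA_stmt := by
  intro D N c x
  refine ⟨fun P Q => ⟨MRA_mul c x P Q, MRA_add c x P Q⟩, MRA_smul c x, MRA_one c x, ?_, ?_, ?_⟩
  · intro P h
    exact (Polynomial.aeval_algHom_apply (MRA_alg c x) P h).symm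
  · intro P hP
    ext s t
    rw [Matrix.conjTranspose_apply, MRA_entry, MRA_entry, ← Matrix.conjTranspose_apply, ← MRA_adj, hP]
  · intro P S hS
    have h1 : ∀ i : Fin D, ∑ w ∈ (P i i).coeff.support, (P i i).coeff w *
        Matrix.trace ((UG c x w : Matrix.unitaryGroup (Fin N) ℂ) : Matrix (Fin N) (Fin N) ℂ) =
        ∑ w ∈ S, (P i i).coeff w *
        Matrix.trace ((UG c x w : Matrix.unitaryGroup (Fin N) ℂ) : Matrix (Fin N) (Fin N) ℂ) := by
      intro i
      refine Finset.sum_subset (fun w hw => by exact_mod_cast hS i i w hw) (fun w _ hw => ?_)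
      rw [Finsupp.notMem_support_iff.1 hw, zero_mul]
    have h2 : Matrix.trace (RM c x P) = ∑ i : Fin D, ∑ w ∈ (P i i).coeff.support, (P i i).coeff w *
        Matrix.trace ((UG c x w : Matrix.unitaryGroup (Fin N) ℂ) : Matrix (Fin N) (Fin N) ℂ) := by
      unfold Matrix.trace
      rw [Fintype.sum_prod_type]
      refine Finset.sum_congr rfl fun i _ => ?_
      simp only [Matrix.diag_apply, RM]
      rw [Finset.sum_comm]
      refine Finset.sum_congr rfl fun w _ => ?_
      rw [Finset.mul_sum]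
    rw [h2, Finset.sum_congr rfl fun i _ => h1 i, Finset.sum_comm]
    refine Finset.sum_congr rfl fun w _ => ?_
    rw [Finset.sum_mul]

end Pool.Agent.QX
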