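import Pool.Agent.helper62.QX.SpecT

/-!
# Project QX, part T, row TNP: normalised traces of polynomials of `P(ρ)`
-/

set_option autoImplicit false

open scoped Topology
open Filter Set Polynomial
open Pool.Agent.QU Pool.Agent.RP

namespace Pool.Agent.QX

/-- normalised eigenvalues -/
private theorem TNP_ev (h1 : GMA_stmt) (h2 : SPV_stmt) (h3 : TRB_stmt) {D N : ℕ}
    {Φ : Equiv.Perm (Fin N) →* Matrix.unitaryGroup (Fin (N - 1)) ℂ} {P : Mat D F2} {K : ℝ}
    {σ : Fin 2 → Equiv.Perm (Fin N)} (hΦ : StdR Φ) (hK : 0 < K) (hP : SA P) (hU : UnB P K) :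
    ∃ e : Fin D × Fin (N - 1) → ℝ, (∀ i, |e i| ≤ 1) ∧
      (∀ h : ℝ[X], np Φ K P h σ = (∑ i, h.eval (e i)) / (D * N)) ∧
      (∀ t : ℝ, 0 ≤ t → K * t < gn (rs Φ σ) P → ∃ i, t < |e i|) ∧
      ∀ (t : ℝ) (p k : ℕ), 0 ≤ t → 1 ≤ p → Cod (GM (rs Φ σ) P ^ p) ((K * t) ^ p) k →
        (Finset.univ.filter (fun i => t < |e i|)).card ≤ k := by
  obtain ⟨_, _, _, _, _, a2, _, _, a4, a5, _⟩ := h1 D (N - 1) (rs Φ σ)
  have hA : (GM (rs Φ σ) P).IsHermitian := a5 P hP
  have hop : gn (rs Φ σ) P ≤ K := (h3 D N Φ P σ K hΦ hK.le).2 hP hU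
  obtain ⟨ev, b1, b2, b3, _, b5⟩ := h2 (Fin D × Fin (N - 1)) (GM (rs Φ σ) P) hA
  have habs : ∀ i, |K⁻¹ * ev i| = K⁻¹ * |ev i| := fun i => by
    rw [abs_mul, abs_of_pos (inv_pos.2 hK)]
  refine ⟨fun i => K⁻¹ * ev i, fun i => ?_, fun h => ?_, fun t ht hKt => ?_, fun t p k ht hp hC => ?_⟩
  · show |K⁻¹ * ev i| ≤ 1
    rw [habs, inv_mul_le_iff₀ hK, mul_one]
    exact (b1 i).trans hop
  · have c1 : GM (rs Φ σ) (aeval (K⁻¹ • P) h) = aeval (GM (rs Φ σ) P) (h.comp (C K⁻¹ * X)) := by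
      rw [a4, a2, aeval_comp, map_mul, aeval_C, aeval_X, Algebra.smul_def]
    have c2 := b2 (h.comp (C K⁻¹ * X))
    unfold np
    rw [c1, c2, Complex.ofReal_re]
    congr 1
    refine Finset.sum_congr rfl fun i _ => ?_
    rw [eval_comp, eval_mul, eval_C, eval_X]
  · by_contra hne
    push Not at hne
    have c3 := b3 (K * t) (mul_nonneg hK.le ht) (fun i => by
      have c4 := hne i
      rw [habs, inv_mul_le_iff₀ hK] at c4
      exact c4)
    exact absurd hKt (not_lt.2 c3)
  · refine le_trans (Finset.card_le_card fun i hi => ?_) (b5 (K * t) p k (mul_nonneg hK.le ht) hp hC)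
    rw [Finset.mem_filter] at hi ⊢
    refine ⟨Finset.mem_univ _, ?_⟩
    have c4 := hi.2
    rw [habs, lt_inv_mul_iff₀ hK] at c4
    exact c4

private theorem TNP_card {D N : ℕ} (hN : 1 ≤ N) :
    (∑ _i : Fin D × Fin (N - 1), (1 : ℝ)) = D * (N - 1) := by
  rw [Finset.sum_const, Finset.card_univ, Fintype.card_prod, Fintype.card_fin, Fintype.card_fin,
    nsmul_eq_mul, mul_one, Nat.cast_mul, Nat.cast_sub hN, Nat.cast_one]

/-- means of numbers in an interval -/
private theorem TNP_mean {D N : ℕ} (hD : 1 ≤ D) (hN : 1 ≤ N) (f : Fin D × Fin (N - 1) → ℝ) (m M : ℝ)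
    (hm : m ≤ 0) (hM : 0 ≤ M) (h : ∀ i, m ≤ f i ∧ f i ≤ M) :
    m ≤ (∑ i, f i) / (D * N : ℝ) ∧ (∑ i, f i) / (D * N : ℝ) ≤ M := by
  have hD' : (0 : ℝ) < D := by exact_mod_cast hD
  have hN' : (0 : ℝ) < N := by exact_mod_cast hN
  have hDN : (0 : ℝ) < D * N := mul_pos hD' hN'
  have hc := TNP_card (D := D) hN
  constructor
  · rw [le_div_iff₀ hDN]
    have h1 : m * (D * (N - 1)) ≤ ∑ i, f i := by
      rw [← hc, Finset.mul_sum]
      exact Finset.sum_le_sum fun i _ => by rw [mul_one]; exact (h i).1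
    nlinarith [mul_nonneg (neg_nonneg.2 hm) hD'.le]
  · rw [div_le_iff₀ hDN]
    have h1 : ∑ i, f i ≤ M * (D * (N - 1)) := by
      rw [← hc, Finset.mul_sum]
      exact Finset.sum_le_sum fun i _ => by rw [mul_one]; exact (h i).2
    nlinarith [mul_nonneg hM hD'.le]

private theorem TNP_one {D N : ℕ} (hD : 1 ≤ D) (hN : 1 ≤ N) (f : Fin D × Fin (N - 1) → ℝ)
    (h : ∀ i, 0 ≤ f i) (i : Fin D × Fin (N - 1)) (hi : 1 ≤ f i) :
    1 / (D * N : ℝ) ≤ (∑ i, f i) / (D * N : ℝ) := by
  have hD' : (0 : ℝ) < D := by exact_mod_cast hD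
  have hN' : (0 : ℝ) < N := by exact_mod_cast hN
  have hDN : (0 : ℝ) < D * N := mul_pos hD' hN'
  rw [div_le_div_iff_of_pos_right hDN]
  exact hi.trans (Finset.single_le_sum (fun j _ => h j) (Finset.mem_univ i))

theorem TNP (h1 : GMA_stmt) (h2 : SPV_stmt) (h3 : TRB_stmt) : TNP_stmt := by
  intro D N Φ P K σ hΦ hD hN hK hP hU
  obtain ⟨e, e5, e3, e4, e6⟩ := TNP_ev h1 h2 h3 (σ := σ) hΦ hK hP hU
  have hD' : (0 : ℝ) < D := by exact_mod_cast hD
  have hN' : (0 : ℝ) < N := by exact_mod_cast hN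
  have hDN : (0 : ℝ) < D * N := mul_pos hD' hN'
  refine ⟨?_, ?_, ?_⟩
  · intro h m M hm hM hmM
    rw [e3 h]
    exact TNP_mean hD hN _ m M hm hM fun i => hmM _ (e5 i)
  · rw [e3 1]
    simp only [eval_one]
    rw [TNP_card hN]
    field_simp
  · intro g a b hg ha hab hb hG
    let θ : Fin D × Fin (N - 1) → ℝ := fun i => Real.arccos (e i)
    have hθ0 : ∀ i, 0 ≤ θ i := fun i => Real.arccos_nonneg _
    have hθπ : ∀ i, θ i ≤ Real.pi := fun i => Real.arccos_le_pi _
    have hcos : ∀ i, Real.cos (θ i) = e i := fun i =>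
      Real.cos_arccos (abs_le.1 (e5 i)).1 (abs_le.1 (e5 i)).2
    have hT : ∀ j : ℕ, ∀ i, (Polynomial.Chebyshev.T ℝ (j : ℤ)).eval (e i) =
        Real.cos (j * θ i) := by
      intro j i
      rw [← hcos i, Polynomial.Chebyshev.T_real_cos]
      norm_num
    have hsum : ∀ i, Summable (fun j : ℕ => g j * Real.cos (j * θ i)) := by
      intro i
      refine Summable.of_norm_bounded hg fun j => ?_
      rw [norm_mul, Real.norm_eq_abs, Real.norm_eq_abs]
      exact mul_le_of_le_one_right (abs_nonneg _) (Real.abs_cos_le_one _)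
    have hy : yp Φ K P g σ = (∑ i, ∑' j : ℕ, g j * Real.cos (j * θ i)) / (D * N) := by
      unfold yp
      have h4 : ∀ j : ℕ, g j * np Φ K P (Polynomial.Chebyshev.T ℝ (j : ℤ)) σ =
          (∑ i, g j * Real.cos (j * θ i)) / (D * N) := by
        intro j
        rw [e3, mul_div_assoc', Finset.mul_sum]
        congr 1
        exact Finset.sum_congr rfl fun i _ => by rw [hT]
      simp only [h4]
      rw [tsum_div_const, Summable.tsum_finsetSum fun i _ => hsum i]
    rw [hy]
    have h01 := TNP_mean hD hN (fun i => ∑' j : ℕ, g j * Real.cos (j * θ i)) 0 1 le_rfl zero_le_one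
      fun i => ⟨(hG (θ i)).1, (hG (θ i)).2.1⟩
    refine ⟨h01.1, ?_, ?_⟩
    · intro p k hp hC
      have hcb : 0 ≤ Real.cos b :=
        Real.cos_nonneg_of_neg_pi_div_two_le_of_le (by linarith [Real.pi_pos]) hb
      have hcard := e6 (Real.cos b) p k hcb hp hC
      have h5 : ∀ i, ¬ (Real.cos b < |e i|) → ∑' j : ℕ, g j * Real.cos (j * θ i) = 0 := by
        intro i h6
        push Not at h6
        have h8 := abs_le.1 h6
        refine (hG (θ i)).2.2.1 ?_ ?_
        · by_contra h9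
          push Not at h9
          have h10 := Real.cos_lt_cos_of_nonneg_of_le_pi (hθ0 i)
            (by linarith [Real.pi_pos]) h9
          rw [hcos] at h10
          linarith
        · by_contra h9
          push Not at h9
          have h10 := Real.cos_lt_cos_of_nonneg_of_le_pi (by linarith [Real.pi_pos])
            (hθπ i) h9
          rw [hcos, Real.cos_pi_sub] at h10
          linarith
      rw [div_le_div_iff_of_pos_right hDN]
      calc ∑ i, ∑' j : ℕ, g j * Real.cos (j * θ i)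
          ≤ ∑ i, (if Real.cos b < |e i| then (1 : ℝ) else 0) := by
            refine Finset.sum_le_sum fun i _ => ?_
            split_ifs with h6
            · exact (hG (θ i)).2.1
            · exact (h5 i h6).le
        _ = ((Finset.univ.filter (fun i => Real.cos b < |e i|)).card : ℝ) := by
            rw [Finset.sum_boole]
        _ ≤ k := by exact_mod_cast hcard
    · intro hop
      have hca : 0 ≤ Real.cos a :=
        Real.cos_nonneg_of_neg_pi_div_two_le_of_le (by linarith [Real.pi_pos]) (by linarith)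
      obtain ⟨i, hi⟩ := e4 (Real.cos a) hca hop
      refine TNP_one hD hN (fun i => ∑' j : ℕ, g j * Real.cos (j * θ i))
        (fun i => (hG (θ i)).1) i ?_
      rcases lt_abs.1 hi with h5 | h5
      · refine le_of_eq ((hG (θ i)).2.2.2.1 (hθ0 i) ?_).symm
        by_contra h9
        push Not at h9
        have h10 := Real.cos_lt_cos_of_nonneg_of_le_pi ha.le (hθπ i) h9
        rw [hcos] at h10
        linarith
      · refine le_of_eq ((hG (θ i)).2.2.2.2 ?_ (hθπ i)).symm
        by_contra h9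
        push Not at h9
        have h10 := Real.cos_lt_cos_of_nonneg_of_le_pi (hθ0 i)
          (by linarith [Real.pi_pos]) h9
        rw [hcos, Real.cos_pi_sub] at h10
        linarith

end Pool.Agent.QX
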